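import Pool.Agent.Y132.HF.Main

/-!
# The absolute Hodge conjecture for all products of given varieties is a finite problem

Let `X i` be finitely many smooth projective varieties and `Z` a further one. The rational Hodge
structures on the cohomology of the products of copies of the `X i` are semisimple: every rational
sub-Hodge structure has a complement (polarisations). We show that there is a number `N`, depending
only on the rational Hodge structures, such that all Hodge classes, of all degrees, on all the
products of `Z` with copies of the `X i` are polynomials with rational coefficients in the pull-backs
of Hodge classes on the products of `Z` with at most `N` of the factors. Hence all Hodge classes on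
all these products are absolute Hodge classes as soon as this is true for the finitely many products
with at most `N` factors.
-/

open CategoryTheory AlgebraicGeometry

universe u

namespace Pool.Agent.Results.MP_e2e4f5_ag.FiniteGeneration

open Pool.Agent.H914 Pool.Agent.H914.VarClass Pool.Agent.H914.VarClass.Obj Pool.Agent.Y132.AH
  Pool.Agent.Y132.HF

variable {k : Type u} [Field k] {𝒱 : VarClass k} {ops : CycleOps 𝒱}

/-- Let `W` be the cohomology of complex manifolds with coefficients `W.K = ℂ` and its rational Hodge
structures `Ψ`, let `X i` be finitely many varieties such that in the cohomology of all the products
of copies of the `X i` every rational sub-Hodge structure has a complementary rational sub-Hodge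
structure, and let `Z` be any variety. Then there is a number `N` such that every Hodge class of any
degree on every product of `Z` with copies of the `X i` is a polynomial with rational coefficients
in pull-backs, by projections, of Hodge classes on products of `Z` with at most `N` of the factors;
and for all comparisons `E` with the cohomology theories for other embeddings the Hodge classes on
all products of `Z` with copies of the `X i` are absolute Hodge classes if and only if this is true
for the products with at most `N` factors. -/
theorem result (W : WeilCohomology.{u, 0} ops) [IsAlgClosed W.K] (Ψ : HodgeData W)
    {ι : Type} [Finite ι] (X : ι → 𝒱.Obj) (Z : 𝒱.Obj)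
    (hX : ∀ (i : ι) (L : List ι), SplitHodge (Ψ.on (prodList X (X i) L))) :
    ∃ N : ℕ, (∀ (L : List ι) (j : ℕ) (c : W.H (prodList X Z L)),
        IsHodge Ψ (prodList X Z L) j c → Gen Ψ X Z N L j c) ∧
      ∀ E : Embeddings W, (∀ L : List ι, AllAbsolute Ψ E (prodList X Z L)) ↔
        ∀ L : List ι, L.length ≤ N → AllAbsolute Ψ E (prodList X Z L) :=
  absolute_finite Ψ X Z hX

end Pool.Agent.Results.MP_e2e4f5_ag.FiniteGeneration
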