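import Pool.Agent.Y118.HX.Fq

/-!
# Hodge classes on powers of the fibres of hypergeometric families at integral points of short intervals

Let `β_1, …, β_m` be rational numbers in `(0, 1)` and `θ = z d/dz`. The hypergeometric operator
`θ^(2m) - z ∏_j (θ + β_j) (θ + 1 - β_j)` has maximally unipotent monodromy at `z = 0` and underlies an irreducible
variation of Hodge structure of rank `2m` and of weight `2m - 1` with all Hodge numbers `h^{p,q} = 1` on the projective
line minus three points, with generic Mumford–Tate group `GSp(2m)`. For `m = 2` these are the fourteen families of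
Calabi–Yau threefolds over `ℚ`; `β = (1/5, 2/5)` is the mirror quintic. In coordinates with respect to the Frobenius
basis `f_0, …, f_{2m-1}` of solutions the step `F^{2m-1-i}`, `i < m`, of the Hodge filtration is spanned by the rows
`(θ^l f_0, …, θ^l f_{2m-1})`, `l ≤ i`, and `F^p` is for `p < m` the orthogonal complement of `F^{2m-p}`. The rational
structure is given by an invertible matrix `C` (with `ζ(3) / (2 π i)^3` and similar periods as entries).

We prove: at all points `z = 1 / t`, `t ∈ ℕ`, with the exception of at most one integer `t` in each residue class modulo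
`G` in each interval `[X, X + X^(1/E)]`, all Hodge classes on all tensor powers of the fibre are rational combinations of
products of polarisations; in particular they are absolute Hodge classes. The constants `G` and `E` do not depend on the
rational structure.
-/

set_option autoImplicit false

open PowerSeries

namespace Pool.Agent.Results.MP_e2e4f5_ag.HypergeometricPowers

/-- the power series `x + ε` in the variable `ε` -/
noncomputable def shift (x : ℚ) : PowerSeries ℚ := C x + X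

/-- `a_k(ε) = ∏_{l < k} ∏_j (l + ε + β_j) (l + ε + 1 - β_j) / (l + 1 + ε)^2`. The series `∑_k a_k(ε) z^(k + ε)` satisfies
`(θ^n - z ∏_j (θ + β_j) (θ + 1 - β_j)) f = ε^n z^ε`, `n = 2m`, hence its coefficients `f_j` at `ε^j` with `j < n` are
solutions of the homogeneous equation. -/
noncomputable def frob {m : ℕ} (β : Fin m → ℚ) (k : ℕ) : PowerSeries ℚ :=
  ∏ l ∈ Finset.range k, ∏ j, (shift (l + β j) * shift (l + 1 - β j) * ((shift (l + 1))⁻¹) ^ 2)

/-- The row `((θ^i f_j)(1 / t))_j`, where `f_j(z)` is the coefficient of `ε^j` in the series `∑_k a_k(ε) z^(k + ε)`,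
`z^ε = ∑_l (log z)^l ε^l / l!`. -/
noncomputable def per {m : ℕ} (β : Fin m → ℚ) (t i : ℕ) : Fin (2 * m) → ℂ := fun j =>
  ∑ l ∈ Finset.range ((j : ℕ) + 1), ((Real.log (1 / t) ^ l / l.factorial : ℝ) : ℂ) *
    ∑' k : ℕ, ((coeff ((j : ℕ) - l) (shift k ^ i * frob β k) : ℚ) : ℂ) * (1 / (t : ℂ)) ^ k

/-- The nilpotent matrix: `exp (2 π i N)` is the local monodromy at `z = 0` in the basis `f_0, …, f_{n-1}`. -/
def N (n : ℕ) : Matrix (Fin n) (Fin n) ℂ := Matrix.of fun i j => if (j : ℕ) = i + 1 then 1 else 0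

/-- the matrix of the flat alternating form in the Frobenius basis -/
def S (n : ℕ) : Matrix (Fin n) (Fin n) ℂ := Matrix.of fun i j => if (i : ℕ) + j + 1 = n then (-1) ^ (i : ℕ) else 0

/-- The base change `C` from the Frobenius basis is a rational structure with the polarisation `P`: the logarithm
`2 π i C⁻¹ N C` of the local monodromy is rational and the flat form is proportional to the rational form `P` on rows,
`(v C⁻¹) S (w C⁻¹)ᵀ = κ v P wᵀ`. -/
structure RationalStructure {n : ℕ} (C : Matrix (Fin n) (Fin n) ℂ) (P : Matrix (Fin n) (Fin n) ℚ) : Prop where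
  det : C.det ≠ 0
  log : ∃ M : Matrix (Fin n) (Fin n) ℚ, C * M.map (fun x : ℚ => (x : ℂ)) = (2 * (Real.pi : ℂ) * Complex.I) • (N n * C)
  form : ∃ κ : ℂ, C⁻¹ * S n * (C⁻¹).transpose = κ • P.map (fun x : ℚ => (x : ℂ))

/-- The step `F^p` of the Hodge filtration at the point `z = 1 / t` in the rational coordinates: the span of the rows
`(θ^i f_j)_j C`, `i + p < 2m`, if `p ≥ m`, and the orthogonal complement of `F^{2m-p}` if `p < m`. -/
noncomputable def F {m : ℕ} (β : Fin m → ℚ) (t : ℕ) (C : Matrix (Fin (2 * m)) (Fin (2 * m)) ℂ) (p : ℕ) :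
    Submodule ℂ (Fin (2 * m) → ℂ) :=
  if m ≤ p then Submodule.span ℂ {v | ∃ i : ℕ, i + p < 2 * m ∧ v = Matrix.vecMul (per β t i) C}
  else
    { carrier := {v | ∀ j, j < p → dotProduct (Matrix.vecMul (Matrix.vecMul v C⁻¹) (S (2 * m))) (per β t j) = 0}
      add_mem' := fun {a b} ha hb j hj => by
        rw [Matrix.add_vecMul, Matrix.add_vecMul, add_dotProduct, ha j hj, hb j hj, add_zero]
      zero_mem' := fun j _ => by rw [Matrix.zero_vecMul, Matrix.zero_vecMul, zero_dotProduct]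
      smul_mem' := fun c a ha j hj => by
        rw [Matrix.smul_vecMul, Matrix.smul_vecMul, smul_dotProduct, ha j hj, smul_zero] }

/-- The filtration `F` and its complex conjugate are opposed, that is, they define a Hodge structure of weight `n - 1`:
no non-zero vector `v` satisfies `v ∈ F^p` and `conj v ∈ F^{n-p}`. -/
def IsHodge {n : ℕ} (F : ℕ → Submodule ℂ (Fin n → ℂ)) : Prop := ∀ p ≤ n, ∀ v ∈ F p, star v ∈ F (n - p) → v = 0

/-- the value at the rows `x_1, …, x_d` of the multilinear form of degree `d` with rational coefficients `T` -/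
noncomputable def value {n d : ℕ} (T : (Fin d → Fin n) → ℚ) (x : Fin d → Fin n → ℂ) : ℂ :=
  ∑ J : Fin d → Fin n, (T J : ℂ) * ∏ l, x l (J l)

/-- The rational multilinear form `T` of degree `d` on the Hodge structure `V = ℚ^n` of weight `n - 1` is a Hodge tensor,
that is, a morphism of Hodge structures from the tensor power `V^{⊗d}` to `ℚ(-d(n-1)/2)`: it vanishes on
`F^{p_1} ⊗ ⋯ ⊗ F^{p_d}` if `p_1 + ⋯ + p_d > d (n - 1) / 2`. -/
def IsHodgeTensor {n d : ℕ} (F : ℕ → Submodule ℂ (Fin n → ℂ)) (T : (Fin d → Fin n) → ℚ) : Prop :=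
  ∀ p : Fin d → ℕ, d * (n - 1) < 2 * ∑ l, p l → ∀ x : Fin d → Fin n → ℂ, (∀ l, x l ∈ F (p l)) → value T x = 0

/-- All Hodge tensors of the Hodge structure `F` are rational linear combinations of products of values of the form `P`:
for every `d` and every Hodge tensor `T` of degree `d`, `T(x_1, …, x_d) = ∑_e c_e ∏_s P(x_{e(s,0)}, x_{e(s,1)})` with
rational `c_e`; the sum is over the bijections `e : {1, …, k} × {0, 1} → {1, …, d}`, so `T = 0` if `d` is odd. -/
def OnlyPolarisation {n : ℕ} (F : ℕ → Submodule ℂ (Fin n → ℂ)) (P : Matrix (Fin n) (Fin n) ℚ) : Prop :=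
  ∀ (d : ℕ) (T : (Fin d → Fin n) → ℚ), IsHodgeTensor F T →
    ∃ (k : ℕ) (c : (Fin k × Fin 2 ≃ Fin d) → ℚ), ∀ J, T J = ∑ e, c e * ∏ s, P (J (e (s, 0))) (J (e (s, 1)))

theorem N_eq (n : ℕ) : N n = Pool.Agent.Y119.HY.cm (Pool.Agent.Y119.HY.Am n) := by
  ext i j
  rw [Pool.Agent.Y119.HY.cm_apply]
  unfold N Pool.Agent.Y119.HY.Am
  rw [Matrix.of_apply, Matrix.of_apply]
  split_ifs <;> simp

theorem S_eq (n : ℕ) : S n = Pool.Agent.Y119.HY.cm (Pool.Agent.Y118.CM.J0 n) := by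
  ext i j
  rw [Pool.Agent.Y119.HY.cm_apply]
  unfold S Pool.Agent.Y118.CM.J0
  rw [Matrix.of_apply, Matrix.of_apply]
  split_ifs <;> simp

theorem map_eq {n : ℕ} (M : Matrix (Fin n) (Fin n) ℚ) : M.map (fun x : ℚ => (x : ℂ)) = Pool.Agent.Y119.HY.cm M := by
  ext i j
  rw [Pool.Agent.Y119.HY.cm_apply, Matrix.map_apply]

theorem F_eq {m : ℕ} (hm : 1 ≤ m) (β : Fin m → ℚ) (t : ℕ) {C : Matrix (Fin (2 * m)) (Fin (2 * m)) ℂ}
    {Q : Matrix (Fin (2 * m)) (Fin (2 * m)) ℚ} {κ : ℂ} (hC : C.det ≠ 0)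
    (hP : C.transpose * Pool.Agent.Y119.HY.cm (Pool.Agent.Y118.CM.J0 (2 * m)) * C = κ • Pool.Agent.Y119.HY.cm Q) (p : ℕ) :
    F β t C p = Pool.Agent.Y118.HX.Fl (fun i => Matrix.vecMul (Pool.Agent.Y118.CM.perr β t i) C)
      (Pool.Agent.Y119.HY.cm Q⁻¹) p := by
  by_cases hp : m ≤ p
  · rw [Pool.Agent.Y118.HX.Fl_hi hp]
    unfold F
    rw [if_pos hp]
    rfl
  · ext v
    rw [Pool.Agent.Y118.HX.mem_Fl_lo (not_le.1 hp)]
    unfold F
    rw [if_neg hp]
    show (∀ j, j < p → dotProduct (Matrix.vecMul (Matrix.vecMul v C⁻¹) (S (2 * m))) (per β t j) = 0) ↔ _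
    refine forall_congr' fun j => forall_congr' fun _ => ?_
    obtain ⟨hκ, -, -⟩ := Pool.Agent.Y118.HX.kappa_ne hC hP hm
    have h1 := Pool.Agent.Y118.HX.dual_form hC hP hm
    have hCC : C⁻¹ * C = 1 := Matrix.nonsing_inv_mul _ (isUnit_iff_ne_zero.2 hC)
    have h2 : dotProduct v (Matrix.mulVec (Pool.Agent.Y119.HY.cm Q⁻¹) (Matrix.vecMul (per β t j) C)) =
        (-κ) * dotProduct (Matrix.vecMul (Matrix.vecMul v C⁻¹) (S (2 * m))) (per β t j) := by
      have h3 : v = Matrix.vecMul (Matrix.vecMul v C⁻¹) C := by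
        rw [Matrix.vecMul_vecMul, hCC, Matrix.vecMul_one]
      conv_lhs => rw [h3]
      rw [← Matrix.mulVec_transpose C (per β t j), Matrix.dotProduct_mulVec, Matrix.dotProduct_mulVec,
        Matrix.vecMul_vecMul, Matrix.vecMul_vecMul, ← Matrix.mul_assoc, h1, S_eq, Matrix.vecMul_smul, smul_dotProduct,
        smul_eq_mul]
    rw [show Pool.Agent.Y118.CM.perr β t j = per β t j from rfl, h2]
    constructor
    · intro h
      rw [h, mul_zero]
    · intro h
      exact (mul_eq_zero.1 h).resolve_left (neg_ne_zero.2 hκ)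

/-- from the form on rows to the dual form -/
theorem dual_of {m : ℕ} (hm : 1 ≤ m) {C : Matrix (Fin (2 * m)) (Fin (2 * m)) ℂ} {P : Matrix (Fin (2 * m)) (Fin (2 * m)) ℚ}
    {κ : ℂ} (hC : C.det ≠ 0) (hP : C⁻¹ * S (2 * m) * (C⁻¹).transpose = κ • P.map (fun x : ℚ => (x : ℂ))) :
    P.det ≠ 0 ∧ C.transpose * Pool.Agent.Y119.HY.cm (Pool.Agent.Y118.CM.J0 (2 * m)) * C =
      (-κ⁻¹) • Pool.Agent.Y119.HY.cm P⁻¹ := by
  rw [map_eq, S_eq] at hP
  set J := Pool.Agent.Y119.HY.cm (Pool.Agent.Y118.CM.J0 (2 * m)) with hJ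
  have hSS : J * J = -1 := by
    rw [hJ, ← Pool.Agent.Y119.HY.cm_mul, Pool.Agent.Y118.CM.J0_sq ⟨m, by ring⟩, Pool.Agent.Y119.HY.cm_neg,
      Pool.Agent.Y119.HY.cm_one]
  have hu : IsUnit C.det := isUnit_iff_ne_zero.2 hC
  have hut : IsUnit C.transpose.det := by rw [Matrix.det_transpose]; exact hu
  have e1 : C * C⁻¹ = 1 := Matrix.mul_nonsing_inv _ hu
  have e2 : C.transpose * (C⁻¹).transpose = 1 := by
    rw [← Matrix.transpose_mul, Matrix.nonsing_inv_mul _ hu, Matrix.transpose_one]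
  have h1 : (C.transpose * J * C) * (κ • Pool.Agent.Y119.HY.cm P) = -1 := by
    rw [← hP]
    calc (C.transpose * J * C) * (C⁻¹ * J * (C⁻¹).transpose) = C.transpose * J * (C * C⁻¹) * J * (C⁻¹).transpose := by
          simp only [Matrix.mul_assoc]
      _ = C.transpose * (J * J) * (C⁻¹).transpose := by
          rw [e1, Matrix.mul_one]
          simp only [Matrix.mul_assoc]
      _ = -1 := by
          rw [hSS, Matrix.mul_neg, Matrix.mul_one, Matrix.neg_mul, e2]
  have hκ : κ ≠ 0 := by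
    intro h0
    rw [h0, zero_smul, Matrix.mul_zero] at h1
    have h2 := congrFun (congrFun h1 ⟨0, by omega⟩) ⟨0, by omega⟩
    rw [Matrix.zero_apply, Matrix.neg_apply, Matrix.one_apply_eq] at h2
    norm_num at h2
  have hPd : P.det ≠ 0 := by
    intro h0
    have h2 : (κ • Pool.Agent.Y119.HY.cm P).det = 0 := by
      rw [Matrix.det_smul]
      have h3 : (Pool.Agent.Y119.HY.cm P).det = ((P.det : ℚ) : ℂ) := by
        rw [← map_eq]
        exact ((Rat.castHom ℂ).map_det P).symm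
      rw [h3, h0, Rat.cast_zero, mul_zero]
    have h3 := congrArg Matrix.det h1
    rw [Matrix.det_mul, h2, mul_zero, Matrix.det_neg, Matrix.det_one, mul_one] at h3
    exact pow_ne_zero _ (by norm_num) h3.symm
  refine ⟨hPd, ?_⟩
  have hPu : IsUnit P.det := isUnit_iff_ne_zero.2 hPd
  have e3 : Pool.Agent.Y119.HY.cm P * Pool.Agent.Y119.HY.cm P⁻¹ = 1 := by
    rw [← Pool.Agent.Y119.HY.cm_mul, Matrix.mul_nonsing_inv _ hPu, Pool.Agent.Y119.HY.cm_one]
  have h4 : (C.transpose * J * C) * (κ • Pool.Agent.Y119.HY.cm P) * (κ⁻¹ • Pool.Agent.Y119.HY.cm P⁻¹) =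
      -1 * (κ⁻¹ • Pool.Agent.Y119.HY.cm P⁻¹) := by rw [h1]
  rw [Matrix.mul_assoc, Matrix.smul_mul, Matrix.mul_smul (Pool.Agent.Y119.HY.cm P), smul_smul, mul_inv_cancel₀ hκ, one_smul,
    e3, Matrix.mul_one] at h4
  rw [h4, Matrix.neg_mul, Matrix.one_mul, neg_smul]

/-- Let `m ≥ 2` and let `β_1, …, β_m` be rational numbers in `(0, 1)`. There are `G` and `E` such that for all integers
`t₁ < t₂` with `t₂ ≡ t₁` modulo `G` and `(t₂ - t₁)^E ≤ t₁` and all rational structures `C` with a polarisation `P` for which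
the filtrations of the hypergeometric variation `θ^(2m) - z ∏_j (θ + β_j) (θ + 1 - β_j)` at `z = 1 / t₁` and
`z = 1 / t₂` are Hodge structures, at least at one of the two points all Hodge tensors are rational linear combinations
of products of polarisations. -/
theorem result {m : ℕ} (hm : 2 ≤ m) (β : Fin m → ℚ) (hβ : ∀ j, 0 < β j ∧ β j < 1) :
    ∃ G E : ℕ, 0 < G ∧ ∀ t₁ t₂ : ℕ, t₁ < t₂ → G ∣ t₂ - t₁ → (t₂ - t₁) ^ E ≤ t₁ →
      ∀ (C : Matrix (Fin (2 * m)) (Fin (2 * m)) ℂ) (P : Matrix (Fin (2 * m)) (Fin (2 * m)) ℚ), RationalStructure C P →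
        IsHodge (F β t₁ C) → IsHodge (F β t₂ C) → OnlyPolarisation (F β t₁ C) P ∨ OnlyPolarisation (F β t₂ C) P := by
  have hβ' : ∀ j, ∀ a : ℤ, β j ≠ a := by
    intro j a h
    have h1 := hβ j
    rw [h] at h1
    have h2 : (0 : ℤ) < a := by exact_mod_cast h1.1
    have h3 : a < (1 : ℤ) := by exact_mod_cast h1.2
    omega
  have hpi : (2 * (Real.pi : ℂ) * Complex.I) ≠ 0 := Complex.two_pi_I_ne_zero
  obtain ⟨G, E, hG, -, hmain⟩ := Pool.Agent.Y118.HX.win_two hm hβ'
  refine ⟨G, E, by omega, fun t₁ t₂ h1 h2 h3 C P hC hF1 hF2 => ?_⟩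
  obtain ⟨hdet, ⟨M, hM⟩, κ, hP⟩ := hC
  obtain ⟨hPd, hQ⟩ := dual_of (by omega) hdet hP
  rw [map_eq, N_eq] at hM
  have hPP : P⁻¹⁻¹ = P := Matrix.nonsing_inv_nonsing_inv _ (isUnit_iff_ne_zero.2 hPd)
  obtain ⟨-, hQd, hsk⟩ := Pool.Agent.Y118.HX.kappa_ne hdet hQ (by omega)
  have hFe : ∀ t p, F β t C p = Pool.Agent.Y118.HX.Fl (fun i => Matrix.vecMul (Pool.Agent.Y118.CM.perr β t i) C)
      (Pool.Agent.Y119.HY.cm P⁻¹⁻¹) p := fun t p => F_eq (β := β) (t := t) (by omega) hdet hQ p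
  have hopp : ∀ t, IsHodge (F β t C) → ∀ p ≤ 2 * m,
      Pool.Agent.Y118.HX.Fl (fun i => Matrix.vecMul (Pool.Agent.Y118.CM.perr β t i) C)
      (Pool.Agent.Y119.HY.cm P⁻¹⁻¹) p ⊓ Pool.Agent.Y118.HX.cj (Pool.Agent.Y118.HX.Fl
      (fun i => Matrix.vecMul (Pool.Agent.Y118.CM.perr β t i) C) (Pool.Agent.Y119.HY.cm P⁻¹⁻¹) (2 * m - p)) = ⊥ := by
    intro t hF p hp
    rw [eq_bot_iff]
    intro v hv
    rw [Submodule.mem_inf, Pool.Agent.Y118.HX.mem_cj, ← hFe, ← hFe] at hv
    rw [Submodule.mem_bot]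
    exact hF p hp v hv.1 hv.2
  have hval : ∀ {d : ℕ} (T : (Fin d → Fin (2 * m)) → ℚ) (x : Fin d → Fin (2 * m) → ℂ),
      value T x = Pool.Agent.Y118.HX.evx x (Pool.Agent.Y118.HX.cmT T) := by
    intro d T x
    unfold value Pool.Agent.Y118.HX.evx Pool.Agent.Y118.HX.cmT
    exact Finset.sum_congr rfl fun J _ => mul_comm _ _
  by_contra hcon
  push Not at hcon
  obtain ⟨hn1, hn2⟩ := hcon
  unfold OnlyPolarisation at hn1 hn2
  push Not at hn1 hn2
  obtain ⟨d1, T1, hT1, hn1⟩ := hn1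
  obtain ⟨d2, T2, hT2, hn2⟩ := hn2
  have hT : ∀ {t d : ℕ} {T : (Fin d → Fin (2 * m)) → ℚ}, IsHodgeTensor (F β t C) T → ∀ p : Fin d → ℕ,
      d * (2 * m - 1) < 2 * ∑ l, p l → ∀ x : Fin d → Fin (2 * m) → ℂ,
      (∀ l, x l ∈ Pool.Agent.Y118.HX.Fl (fun i => Matrix.vecMul (Pool.Agent.Y118.CM.perr β t i) C)
        (Pool.Agent.Y119.HY.cm P⁻¹⁻¹) (p l)) → Pool.Agent.Y118.HX.evx x (Pool.Agent.Y118.HX.cmT T) = 0 := by
    intro t d T hT p hp x hx
    rw [← hval]
    refine hT p hp x fun l => ?_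
    rw [hFe]
    exact hx l
  rcases hmain t₁ t₂ h1 h2 h3 C M P⁻¹ _ _ hdet hpi hM hQ (hopp t₁ hF1) (hopp t₂ hF2) d1 d2 T1 T2 (hT hT1) (hT hT2)
    with hj | hj
  · obtain ⟨k, c, hc⟩ := Pool.Agent.Y118.HX.fft_rat hQd hsk (T := T1) hj
    rw [hPP] at hc
    obtain ⟨J, hJ⟩ := hn1 k c
    exact hJ (hc J)
  · obtain ⟨k, c, hc⟩ := Pool.Agent.Y118.HX.fft_rat hQd hsk (T := T2) hj
    rw [hPP] at hc
    obtain ⟨J, hJ⟩ := hn2 k c
    exact hJ (hc J)

end Pool.Agent.Results.MP_e2e4f5_ag.HypergeometricPowers
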