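import Pool.Agent.Y121.AHS.Third

/-!
# The one-third law for absolutely Hodge classes

Let `T` be a Hodge theory on a class of smooth projective varieties (in the intended use the
varieties are all smooth projective complex varieties, or those over an algebraically closed
subfield, and `T` is `X ↦ H(X, ℚ)`), and `D` a family of conjugate theories `T' i` with comparison
isomorphisms `a` with coefficients `L i a` (the theories `X ↦ H(X^σ, ℚ)` for the automorphisms `σ`
of `ℂ`, with the comparison isomorphisms given by de Rham cohomology and by `ℓ`-adic cohomology).
Assume that the `ℓ`-adic comparison isomorphisms are there for all prime numbers `ℓ`.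

Then for every variety `X` of the class at least one of the following is true:

* for all powers of `X` and all automorphisms `σ`, the de Rham part and the `ℓ`-adic part, for all
  `ℓ`, of the absolute Hodge conjecture are true: the conjugate of every Hodge class is a Hodge class
  for every comparison isomorphism; moreover the conjugates for the various comparison isomorphisms
  are `c₀ + c₁` or `c₀ - c₁`, where the sign depends on the comparison isomorphism, but not on the
  class and the power of `X`;
* the quotient of the number of linearly independent absolutely Hodge classes and of the number of
  linearly independent Hodge classes on `X ^ n` tends to `1 / N` with `N ∈ {3, 4, …, ∞}`.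
-/

open CategoryTheory AlgebraicGeometry

universe u

namespace Pool.Agent.Results.MP_e2e4f5_ag.OneThirdLaw

open Pool.Agent.H914 Pool.Agent.Y121.AHS Pool.Agent.Y121.AHS.Full
open Pool.Agent.Y133.Half (pw)

variable {k : Type u} [Field k] {𝒱 : VarClass k} {ops : CycleOps 𝒱}

/-- The one-third law: `pw X n` is the product of `n + 1` copies of `X`. -/
theorem result (T : HodgeTheory ops) (D : Full.Conjugates T) (hD : AllPrimes D) (X : 𝒱.Obj) :
    (∀ i, ∃ ε : D.J i → ℤˣ, ∀ n j, UpToSign D i ε (pw X n) j) ∨
      AtMostThird (fun n => Full.absDim D (pw X n)) fun n => hodgeDim T (pw X n) :=
  third_law T D hD X

end Pool.Agent.Results.MP_e2e4f5_ag.OneThirdLaw
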