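import Mathlib
import Pool.Agent.Y91.PS.Free
import Pool.Agent.Y91.AH.Main
import Pool.Agent.Y91.AH.Conj

/-!
# The absolute Hodge conjecture for the products of any variety with very general members of families
# of abelian varieties with square zero operators of general rank

Let `A i` be finitely many families of principally polarized abelian varieties, not constant, given
by holomorphic families `Z i` of period matrices over the connected open set `U` (for instance the
universal covering of a curve), and suppose that each of them is good (`IsGoodFamily`): it satisfies
one of the following conditions.

1. The very general member is simple, more than half of its endomorphisms are symmetric for the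
   Rosati involution (that is, its endomorphism algebra is of type I or II in the classification of
   Albert) and some rational rank `r` is different from `0`, `g / 2` and `g`, and `(g, r)` is not
   exceptional, or there is another rational rank. A rational rank is the rank of `γ - 1` for a
   monodromy operator `γ` with `(γ - 1) ^ 2 = 0`, that is the dimension of the toric part of the
   fibre of the Néron model at a semistable degeneration, or the rank of any rational square zero
   element of the Lie algebra generated by the Hodge operators. The pair is exceptional if
   `2 g = e * C(4j+2, 2j+1)` and `r = e * C(4j, 2j)` for some `e` and some `j ≥ 1`, for instance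
   `(10, 6)`, `(126, 70)`.
2. All endomorphisms are rational numbers, some rank `r` of the family is different from `0`, `g / 2`
   and `g`, and `(g, r)` is not exceptional with `e = 1` or there is another rank, and `2 g` does not
   divide the product of two of the ranks. Here a rank of the family is the rank of the
   Kodaira-Spencer map at one point, of the difference of two period matrices, of the image of a
   period matrix under a derivation of the complex numbers, or of any square zero element of the
   Lie algebra generated by the Hodge operators.
3. The very general member is simple and some rank of the family is odd, or is two and the centre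
   of the endomorphism algebra is totally real.

Let `K` be a countable field of complex numbers. Then for all `t` in `U` outside of a countable set,
all products `A` of the members `A i t` (repetitions allowed) and ALL smooth projective varieties `Y`
such that the Hodge operator of the cohomology of `Y` has entries in `K` or such that `Y` is of CM
type: if the absolute Hodge conjecture is true for `Y` then it is true for `A × Y`.

This holds for each set `P` of cohomology theories (`L p` is the coefficient field of the theory
`p`): for `P = {de Rham}`, `L = ℂ` it is the first question of the problem, for `P = {ℓ}`, `L = ℚ_ℓ` the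
second question, and if `P` contains the de Rham cohomology and the `ℓ`-adic cohomology for all `ℓ` it is
the formulation of Deligne, where the conjugate class is the same for all theories.

For an automorphism `σ` of the complex numbers the isomorphism between the cohomology groups of a
variety and its conjugate is (in rational bases, and in the normalization of the problem) given by a
matrix with entries in `L p`; it is `σ`-linear for the de Rham cohomology, but on rational classes it
is the linear map with this matrix. The conjugates of `A` and `Y` have period matrices `Z'` and the
Hodge structure `V'` (`Conjugate`). Nothing is used of these isomorphisms except that they map divisor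
classes on `A` to divisor classes on the conjugate of `A` (`KeepsDivisors`).

For abelian varieties the absolute Hodge conjecture was proved by Deligne, but for the product of an
abelian variety and a variety `Y` it is not known to follow from the conjecture for `Y`.

The proof: a classification free argument with Jordan pairs (see the files of `Pool/Agent/Y91/JP`)
shows that the Lie algebra generated by the Hodge operators of `A i` is symplectic over the complex
numbers on each irreducible piece. A derivation of the complex numbers over `K` shows that the
Hodge structures of `A` and `Y` are independent. So the Hodge classes on `A × Y` are sums of products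
of divisor classes on `A` and Hodge classes on `Y`.
-/

namespace Pool.Agent.Results.MP_e2e4f5_ag.TimesMonodromyFamilies

open Matrix Module Pool.Agent.H204R3.CM Pool.Agent.H194R3.CM Pool.Agent.W437.HD
  Pool.Agent.W437.HP Pool.Agent.TH131.GHC Pool.Agent.TH504.VY Pool.Agent.Y91.Sharp
  Pool.Agent.Y91.PS Pool.Agent.Y91.TT Pool.Agent.Y91.AH

section defs

variable {P : Type} {L : P → Type} [∀ p, Field (L p)] [∀ p, CharZero (L p)] {n : ℕ}
  {d : Fin n → ℕ} {T : Type} [AddCommGroup T] [Module ℂ T] (per : HV ℚ d →+ T) {v : ℕ}

/-- The absolute Hodge conjecture for `Y` and the automorphism `σ`: the conjugates of Hodge classes
are Hodge classes. -/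
def HodgeOnY (σ : Conjugate L d v) (V : Coh v) : Prop := ∀ x, IsHodgeOn V x → σ.KeepsClass x

/-- The absolute Hodge conjecture for `A × Y` and the automorphism `σ`: the conjugates of Hodge
classes are Hodge classes. -/
def HodgeOnProduct (σ : Conjugate L d v) (V : Coh v) : Prop :=
  ∀ F, IsHodgeOnProduct per V F → σ.Keeps F

end defs

/-- Let `Z i` be finitely many good families over the connected open set `U`, not constant, and `K` a
countable field of complex numbers. For all `t` in `U` outside of a countable set, for all
varieties `Y` of CM type or whose Hodge operator has entries in `K`, for all products `A` of
abelian varieties `ℂ ^ g / (ℤ ^ g + Z(t) ℤ ^ g)`, `Z` one of the `Z i` (repetitions allowed), and for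
all sets of cohomology theories: the absolute Hodge conjecture for `Y` implies the absolute Hodge
conjecture for `A × Y`. -/
theorem result {ι : Type} [Fintype ι] {U : Set ℂ} (hU : IsOpen U) (hc : IsPreconnected U)
    {g : ι → ℕ} (Z : ∀ i, ℂ → Matrix (Fin (g i)) (Fin (g i)) ℂ)
    (h : ∀ i, IsGoodFamily U (Z i)) (hnc : ∀ i, ∃ s ∈ U, ∃ t ∈ U, Z i s ≠ Z i t)
    (K : Subfield ℂ) (hK : (K : Set ℂ).Countable) :
    ∃ E : Set ℂ, E.Countable ∧ ∀ t ∈ U, t ∉ E → ∀ {v : ℕ} (V : Coh v),
      (IsCMType V ∨ HasPeriodsIn K V) → ∀ {m : ℕ} (c : Fin m → ι) {P : Type} (L : P → Type)
        [∀ p, Field (L p)] [∀ p, CharZero (L p)] (σ : Conjugate L (fun j => g (c j)) v),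
        σ.KeepsDivisors (perFam (fun i => Z i t) c) → HodgeOnY σ V →
          HodgeOnProduct (perFam (fun i => Z i t) c) σ V := by
  obtain ⟨E, hE, hEt⟩ := exists_free hU hc Z h hnc K hK
  refine ⟨E, hE, fun t ht htE v V hV m c P L _ _ σ hdiv hY F hF => ?_⟩
  let Q : Submodule ℚ (HAZ (HV ℚ fun j => g (c j)) v) :=
    { carrier := {F | σ.Keeps F}
      zero_mem' := ⟨0, product_zero, fun p => carries_zero⟩
      add_mem' := by
        rintro F G ⟨F', h1, h2⟩ ⟨G', h3, h4⟩
        exact ⟨F' + G', product_add h1 h3, fun p => carries_add (h2 p) (h4 p)⟩
      smul_mem' := by
        rintro r F ⟨F', h1, h2⟩
        exact ⟨r • F', product_smul r h1, fun p => carries_smul r (h2 p)⟩ }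
  have hfree := hEt t ht htE V hV c
  have key : F ∈ Q := by
    refine hfree.mem_of_integrals hF fun k j e f hf β hβ => ?_
    obtain ⟨x', h1, h2⟩ := hY _ (hfree.integral_mem hF e β)
    exact cross_carries hdiv hf h1 h2
  exact key

end Pool.Agent.Results.MP_e2e4f5_ag.TimesMonodromyFamilies
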